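import Pool.Agent.Lib.MP_be8344_nt.Count

/-!
# The class number and the number of ideals of norm at most `√|D|`
-/

set_option autoImplicit false

open Finset NumberField Ideal Module
open scoped nonZeroDivisors

namespace Pool.Agent.Lib.MP_be8344_nt

open Pool.Agent.Lib.MP5b6025.RP.FieldM

variable (K : Type*) [Field K] [NumberField K]

theorem exists_small (h2 : finrank ℚ K = 2) (C : ClassGroup (𝓞 K)) :
    ∃ I : (Ideal (𝓞 K))⁰, ClassGroup.mk0 I = C ∧
      absNorm (I : Ideal (𝓞 K)) ≤ Nat.sqrt (discr K).natAbs := by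
  obtain ⟨I, hI, hM⟩ := exists_ideal_in_class_of_norm_le C
  refine ⟨I, hI, ?_⟩
  have hr : InfinitePlace.nrComplexPlaces K ≤ 1 := by
    have := InfinitePlace.card_add_two_mul_card_eq_rank K
    omega
  have hpi : 1 ≤ 4 / Real.pi := by
    rw [le_div_iff₀ Real.pi_pos]
    linarith [Real.pi_le_four]
  have h1 : (4 / Real.pi) ^ InfinitePlace.nrComplexPlaces K ≤ 2 := by
    calc (4 / Real.pi) ^ InfinitePlace.nrComplexPlaces K ≤ (4 / Real.pi) ^ 1 :=
          pow_le_pow_right₀ hpi hr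
      _ ≤ 2 := by
          rw [pow_one, div_le_iff₀ Real.pi_pos]
          linarith [Real.pi_gt_three]
  have h3 : (absNorm (I : Ideal (𝓞 K)) : ℝ) ≤ √((discr K).natAbs : ℝ) := by
    refine hM.trans ?_
    have h4 : |((discr K : ℤ) : ℝ)| = ((discr K).natAbs : ℝ) := by
      rw [Nat.cast_natAbs, Int.cast_abs]
    rw [h2, h4]
    have h6 : ((Nat.factorial 2 : ℕ) : ℝ) / ((2 : ℕ) : ℝ) ^ 2 = 1 / 2 := by
      norm_num [Nat.factorial]
    rw [h6]
    calc (4 / Real.pi) ^ InfinitePlace.nrComplexPlaces K * (1 / 2 * √((discr K).natAbs : ℝ)) ≤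
        2 * (1 / 2 * √((discr K).natAbs : ℝ)) :=
          mul_le_mul_of_nonneg_right h1 (by positivity)
      _ = _ := by ring
  rw [Nat.le_sqrt']
  have h7 := pow_le_pow_left₀ (Nat.cast_nonneg _) h3 2
  rw [Real.sq_sqrt (Nat.cast_nonneg _)] at h7
  exact_mod_cast h7

theorem card_le_AA (h2 : finrank ℚ K = 2) :
    (Nat.card (ClassGroup (𝓞 K)) : ℝ) ≤ AA K (Nat.sqrt (discr K).natAbs) := by
  classical
  set N := Nat.sqrt (discr K).natAbs with hN
  set S : Finset (Ideal (𝓞 K)) := (Ioc 0 N).biUnion (ids K) with hS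
  have h1 : Nat.card (ClassGroup (𝓞 K)) ≤ S.card := by
    choose I hI hI' using exists_small K h2
    rw [Nat.card_eq_fintype_card, ← card_univ]
    refine card_le_card_of_injOn (fun C => (I C : Ideal (𝓞 K))) (fun C _ => ?_) (fun C _ C' _ h => ?_)
    · have h0 : absNorm (I C : Ideal (𝓞 K)) ≠ 0 := by
        rw [Ne, absNorm_eq_zero_iff]
        exact nonZeroDivisors.ne_zero (I C).2
      rw [mem_coe, hS, mem_biUnion]
      exact ⟨absNorm (I C : Ideal (𝓞 K)), mem_Ioc.2 ⟨Nat.pos_of_ne_zero h0, hI' C⟩,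
        mem_ids.2 rfl⟩
    · have h3 : I C = I C' := Subtype.ext h
      rw [← hI C, ← hI C', h3]
  have h3 : S.card ≤ ∑ m ∈ Ioc 0 N, (ids K m).card := card_biUnion_le
  have h4 : AA K N = ((∑ m ∈ Ioc 0 N, (ids K m).card : ℕ) : ℝ) := by
    unfold AA
    rw [Nat.cast_sum]
    refine sum_congr rfl fun m hm => ?_
    rw [mem_Ioc] at hm
    exact cK_apply K (by omega)
  rw [h4]
  exact_mod_cast h1.trans h3

end Pool.Agent.Lib.MP_be8344_nt
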