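import Pool.Agent.Lib.MP_5b6025_nt.RP.FieldSum

/-!
# The number of ideals of norm at most `N`, in terms of the non-inert primes
-/

set_option autoImplicit false

open ArithmeticFunction Finset Filter Topology NumberField Ideal
open scoped nonZeroDivisors

namespace Pool.Agent.Lib.MP_be8344_nt

open Pool.Agent.Lib.MP5b6025.RP Pool.Agent.Lib.MP5b6025.RP.FieldM

variable (K : Type*) [Field K] [NumberField K]

/-- number of the ideals of norm at most `N` -/
noncomputable def AA (N : ℕ) : ℝ := ∑ m ∈ Ioc 0 N, cK K m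

/-- sum of the reciprocals of the norms -/
noncomputable def GG (N : ℕ) : ℝ := ∑ m ∈ Ioc 0 N, cK K m / (m : ℝ)

theorem gK_sum_le (N : ℕ) :
    ∑ d ∈ Ioc 0 N, gK K d ≤ (Module.finrank ℤ (𝓞 K) : ℝ) * (Real.log 4 + 4) * N := by
  calc ∑ d ∈ Ioc 0 N, gK K d ≤ ∑ d ∈ Ioc 0 N, (Module.finrank ℤ (𝓞 K) : ℝ) * Λ d :=
        sum_le_sum fun d _ => gK_le K d
    _ = (Module.finrank ℤ (𝓞 K) : ℝ) * ∑ d ∈ Ioc 0 N, Λ d := by rw [mul_sum]
    _ ≤ (Module.finrank ℤ (𝓞 K) : ℝ) * ((Real.log 4 + 4) * N) :=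
        mul_le_mul_of_nonneg_left (MertensM.psi_bd N) (Nat.cast_nonneg _)
    _ = _ := by ring

/-- (A) the number of ideals and the sum of the reciprocals of the norms -/
theorem AA_le (N : ℕ) (hN : 1 ≤ N) :
    AA K N * Real.log N ≤
      ((Module.finrank ℤ (𝓞 K) : ℝ) * (Real.log 4 + 4) + 1) * N * GG K N := by
  have hl4 : (0 : ℝ) ≤ Real.log 4 := Real.log_nonneg (by norm_num)
  have hid : ∀ n, cK K n * Real.log n = (cK K * gK K) n := fun n => by
    rw [mul_comm (cK K) (gK K)]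
    exact identity K n
  have h1 : ∑ m ∈ Ioc 0 N, cK K m * Real.log m =
      ∑ m ∈ Ioc 0 N, cK K m * ∑ d ∈ Ioc 0 (N / m), gK K d := by
    rw [sum_congr rfl (fun n _ => hid n), sum_Ioc_mul_eq_sum_sum]
  have h2 : AA K N * Real.log N = ∑ m ∈ Ioc 0 N, cK K m * (Real.log N - Real.log m) +
      ∑ m ∈ Ioc 0 N, cK K m * Real.log m := by
    unfold AA
    rw [sum_mul, ← sum_add_distrib]
    exact sum_congr rfl fun m _ => by ring
  rw [h2, h1, ← sum_add_distrib]
  unfold GG
  rw [mul_sum]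
  refine sum_le_sum fun m hm => ?_
  rw [mem_Ioc] at hm
  have hm0 : (0 : ℝ) < m := by exact_mod_cast hm.1
  have hN0 : (0 : ℝ) < N := by exact_mod_cast hN
  have h3 : Real.log N - Real.log m ≤ N / m := by
    rw [← Real.log_div hN0.ne' hm0.ne']
    have := Real.log_le_sub_one_of_pos (div_pos hN0 hm0)
    linarith
  have h4 := gK_sum_le K (N / m)
  have h5 : ((N / m : ℕ) : ℝ) ≤ N / m := Nat.cast_div_le
  have h6 : (Module.finrank ℤ (𝓞 K) : ℝ) * (Real.log 4 + 4) * ((N / m : ℕ) : ℝ) ≤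
      (Module.finrank ℤ (𝓞 K) : ℝ) * (Real.log 4 + 4) * (N / m) :=
    mul_le_mul_of_nonneg_left h5 (by positivity)
  have h7 := mul_le_mul_of_nonneg_left h3 (cK_nonneg K m)
  have h8 := mul_le_mul_of_nonneg_left (h4.trans h6) (cK_nonneg K m)
  calc _ ≤ cK K m * (N / m) +
        cK K m * ((Module.finrank ℤ (𝓞 K) : ℝ) * (Real.log 4 + 4) * (N / m)) := add_le_add h7 h8
    _ = _ := by ring

theorem cK_one : cK K 1 = 1 := by
  rw [cK_apply K one_ne_zero]
  have : ids K 1 = {⊤} := by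
    ext I
    rw [mem_ids, mem_singleton, absNorm_eq_one_iff]
  rw [this]
  simp

theorem gK_one : gK K 1 = 0 := by
  have h3 := gK_le K 1
  have h4 := gK_nonneg K 1
  rw [vonMangoldt_apply_one, mul_zero] at h3
  linarith

/-- the partial sums of the zeta function -/
noncomputable def FF (N : ℕ) (s : ℝ) : ℝ := ∑ m ∈ Ioc 0 N, cK K m * Real.exp (-s * Real.log m)

theorem FF_one_le (N : ℕ) (hN : 1 ≤ N) (s : ℝ) : 1 ≤ FF K N s := by
  have h : cK K 1 * Real.exp (-s * Real.log (1 : ℕ)) ≤ FF K N s :=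
    single_le_sum (f := fun m : ℕ => cK K m * Real.exp (-s * Real.log m))
      (fun m _ => mul_nonneg (cK_nonneg K m) (Real.exp_pos _).le) (mem_Ioc.2 ⟨one_pos, hN⟩)
  rw [cK_one] at h
  simpa using h

theorem FF_deriv (N : ℕ) (s : ℝ) : HasDerivAt (FF K N)
    (-∑ m ∈ Ioc 0 N, cK K m * Real.log m * Real.exp (-s * Real.log m)) s := by
  unfold FF
  rw [← sum_neg_distrib]
  refine HasDerivAt.fun_sum fun m _ => ?_
  have h1 : HasDerivAt (fun s : ℝ => -s * Real.log m) (-1 * Real.log m) s :=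
    (hasDerivAt_id s).neg.mul_const _
  exact ((h1.exp).const_mul (cK K m)).congr_deriv (by ring)

/-- the sum over the prime powers -/
noncomputable def HH (N : ℕ) (s : ℝ) : ℝ :=
  ∑ d ∈ Ioc 1 N, gK K d / Real.log d * Real.exp (-s * Real.log d)

theorem HH_deriv (N : ℕ) (s : ℝ) : HasDerivAt (HH K N)
    (-∑ d ∈ Ioc 1 N, gK K d * Real.exp (-s * Real.log d)) s := by
  unfold HH
  rw [← sum_neg_distrib]
  refine HasDerivAt.fun_sum fun m hm => ?_
  rw [mem_Ioc] at hm
  have h0 : Real.log m ≠ 0 := (Real.log_pos (by exact_mod_cast hm.1)).ne'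
  have h1 : HasDerivAt (fun s : ℝ => -s * Real.log m) (-1 * Real.log m) s :=
    (hasDerivAt_id s).neg.mul_const _
  exact ((h1.exp).const_mul (gK K m / Real.log m)).congr_deriv (by field_simp)

theorem log_sum_le (N : ℕ) (s : ℝ) :
    ∑ m ∈ Ioc 0 N, cK K m * Real.log m * Real.exp (-s * Real.log m) ≤
      (∑ d ∈ Ioc 1 N, gK K d * Real.exp (-s * Real.log d)) * FF K N s := by
  have hexp : ∀ d e : ℕ, d ≠ 0 → e ≠ 0 → Real.exp (-s * Real.log ((d * e : ℕ) : ℝ)) =
      Real.exp (-s * Real.log d) * Real.exp (-s * Real.log e) := by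
    intro d e hd he
    rw [Nat.cast_mul, Real.log_mul (by exact_mod_cast hd) (by exact_mod_cast he), mul_add,
      Real.exp_add]
  set u : ℕ → ℝ := fun d => gK K d * Real.exp (-s * Real.log d) with hu
  set w : ℕ → ℝ := fun e => cK K e * Real.exp (-s * Real.log e) with hw
  have hu0 : ∀ d, 0 ≤ u d := fun d => mul_nonneg (gK_nonneg K d) (Real.exp_pos _).le
  have hw0 : ∀ d, 0 ≤ w d := fun d => mul_nonneg (cK_nonneg K d) (Real.exp_pos _).le
  have h1 : ∀ m ∈ Ioc 0 N, cK K m * Real.log m * Real.exp (-s * Real.log m) =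
      ∑ x ∈ Nat.divisorsAntidiagonal m, u x.1 * w x.2 := by
    intro m hm
    rw [identity K m, ArithmeticFunction.mul_apply, sum_mul]
    refine sum_congr rfl fun x hx => ?_
    rw [Nat.mem_divisorsAntidiagonal] at hx
    have hx1 : x.1 ≠ 0 := by
      rintro h
      rw [h, zero_mul] at hx
      exact hx.2 hx.1.symm
    have hx2 : x.2 ≠ 0 := by
      rintro h
      rw [h, mul_zero] at hx
      exact hx.2 hx.1.symm
    rw [← hx.1, hexp _ _ hx1 hx2]
    simp only [hu, hw]
    ring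
  have h2 : (∑ d ∈ Ioc 0 N, u d) * FF K N s = ∑ x ∈ Ioc 0 N ×ˢ Ioc 0 N, u x.1 * w x.2 := by
    unfold FF
    rw [sum_mul_sum, ← sum_product']
  have h3 : ∑ d ∈ Ioc 0 N, u d = ∑ d ∈ Ioc 1 N, u d := by
    symm
    apply sum_subset
    · intro d hd
      rw [mem_Ioc] at hd ⊢
      omega
    · intro d hd hd'
      rw [mem_Ioc] at hd hd'
      have : d = 1 := by omega
      subst this
      simp only [hu]
      rw [gK_one, zero_mul]
  rw [← h3, h2, sum_congr rfl h1, sum_sigma']
  have hinj : Set.InjOn (fun z : (_ : ℕ) × ℕ × ℕ => z.2)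
      ((Ioc 0 N).sigma (fun m => Nat.divisorsAntidiagonal m) : Set ((_ : ℕ) × ℕ × ℕ)) := by
    rintro ⟨m, x⟩ hz ⟨m', x'⟩ hz' h
    simp only [coe_sigma, Set.mem_sigma_iff, mem_coe, Nat.mem_divisorsAntidiagonal] at hz hz' h
    subst h
    rw [← hz.2.1, ← hz'.2.1]
  rw [← sum_image (f := fun x : ℕ × ℕ => u x.1 * w x.2) hinj]
  refine sum_le_sum_of_subset_of_nonneg ?_ fun x _ _ => mul_nonneg (hu0 _) (hw0 _)
  intro x hx
  rw [mem_image] at hx
  obtain ⟨⟨m, y⟩, hz, rfl⟩ := hx
  rw [mem_sigma, Nat.mem_divisorsAntidiagonal, mem_Ioc] at hz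
  obtain ⟨hz1, hz2, hz3⟩ := hz
  dsimp only at hz1 hz2 ⊢
  rw [mem_product, mem_Ioc, mem_Ioc]
  have h4 : y.1 ≠ 0 := by
    rintro h
    rw [h, zero_mul] at hz2
    omega
  have h5 : y.2 ≠ 0 := by
    rintro h
    rw [h, mul_zero] at hz2
    omega
  have h6 : y.1 ≤ m := by
    rw [← hz2]
    exact Nat.le_mul_of_pos_right _ (by omega)
  have h7 : y.2 ≤ m := by
    rw [← hz2]
    exact Nat.le_mul_of_pos_left _ (by omega)
  omega

/-- (B) the Euler product, as an inequality -/
theorem GG_le_exp (N : ℕ) (hN : 1 ≤ N) :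
    GG K N ≤ Real.exp (∑ d ∈ Ioc 1 N, gK K d / (d * Real.log d)) := by
  have hpos : ∀ s, 0 < FF K N s := fun s => lt_of_lt_of_le one_pos (FF_one_le K N hN s)
  have hder : ∀ s, HasDerivAt (fun s => Real.log (FF K N s) - HH K N s)
      (-(∑ m ∈ Ioc 0 N, cK K m * Real.log m * Real.exp (-s * Real.log m)) / FF K N s -
        -∑ d ∈ Ioc 1 N, gK K d * Real.exp (-s * Real.log d)) s := fun s =>
    ((FF_deriv K N s).log (hpos s).ne').sub (HH_deriv K N s)
  have hmono : Monotone (fun s => Real.log (FF K N s) - HH K N s) := by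
    apply monotone_of_deriv_nonneg (fun s => (hder s).differentiableAt)
    intro s
    rw [(hder s).deriv, sub_neg_eq_add, neg_div, neg_add_eq_sub, sub_nonneg,
      div_le_iff₀ (hpos s)]
    exact log_sum_le K N s
  have hlim1 : Tendsto (fun s => FF K N s) atTop (𝓝 1) := by
    have h1 : FF K N = fun s => ∑ m ∈ Ioc 0 N, cK K m * Real.exp (-s * Real.log m) := rfl
    have h2 : (1 : ℝ) = ∑ m ∈ Ioc 0 N, if m = 1 then cK K 1 else 0 := by
      rw [sum_ite_eq', if_pos (mem_Ioc.2 ⟨one_pos, hN⟩), cK_one]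
    rw [h1, h2]
    refine tendsto_finsetSum _ fun m hm => ?_
    rw [mem_Ioc] at hm
    split_ifs with h
    · subst h
      simp
    · have h3 : 0 < Real.log m := Real.log_pos (by exact_mod_cast (by omega : 1 < m))
      rw [← mul_zero (cK K m)]
      apply Tendsto.const_mul
      apply Real.tendsto_exp_atBot.comp
      have h4 : (fun s : ℝ => -s * Real.log m) = fun s => -(s * Real.log m) := by
        funext s; ring
      rw [h4]
      exact tendsto_neg_atTop_atBot.comp (tendsto_id.atTop_mul_const h3)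
  have hlim2 : Tendsto (fun s => Real.log (FF K N s)) atTop (𝓝 0) := by
    rw [← Real.log_one]
    exact (Real.continuousAt_log one_ne_zero).tendsto.comp hlim1
  have hH0 : ∀ s, 0 ≤ HH K N s := by
    intro s
    refine sum_nonneg fun d hd => ?_
    rw [mem_Ioc] at hd
    exact mul_nonneg (div_nonneg (gK_nonneg K d) (Real.log_natCast_nonneg d)) (Real.exp_pos _).le
  have hkey : Real.log (FF K N 1) - HH K N 1 ≤ 0 := by
    apply ge_of_tendsto hlim2
    filter_upwards [eventually_ge_atTop (1 : ℝ)] with s hs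
    have := hmono hs
    dsimp only at this
    linarith [hH0 s]
  have hexp : ∀ m : ℕ, m ≠ 0 → Real.exp (-1 * Real.log m) = 1 / (m : ℝ) := by
    intro m hm
    rw [neg_one_mul, Real.exp_neg, Real.exp_log (by exact_mod_cast (Nat.pos_of_ne_zero hm)),
      one_div]
  have e1 : FF K N 1 = GG K N := by
    unfold FF GG
    refine sum_congr rfl fun m hm => ?_
    rw [mem_Ioc] at hm
    rw [hexp m (by omega)]
    ring
  have e2 : HH K N 1 = ∑ d ∈ Ioc 1 N, gK K d / (d * Real.log d) := by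
    unfold HH
    refine sum_congr rfl fun m hm => ?_
    rw [mem_Ioc] at hm
    rw [hexp m (by omega), div_mul_div_comm, mul_one, mul_comm]
  rw [← e1, ← e2, ← Real.log_le_iff_le_exp (hpos 1)]
  linarith

/-- (C) the prime powers -/
theorem prime_part : ∃ C : ℝ, 0 ≤ C ∧ ∀ (K : Type*) [Field K] [NumberField K] (N : ℕ),
    ∑ d ∈ Ioc 1 N, gK K d / (d * Real.log d) ≤ (Module.finrank ℤ (𝓞 K) : ℝ) *
      (C + ∑ p ∈ (Ioc 0 N).filter (fun p => p.Prime ∧ (ids K p).Nonempty), 1 / (p : ℝ)) := by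
  obtain ⟨C, hC, h⟩ := MertensM.nonprime_bd
  have hl2 : 0 < Real.log 2 := Real.log_pos (by norm_num)
  refine ⟨C / Real.log 2, by positivity, fun K _ _ N => ?_⟩
  have h0 : Ioc 1 N ⊆ Ioc 0 N := fun d hd => by
    rw [mem_Ioc] at hd ⊢
    omega
  have hn : (0 : ℝ) ≤ Module.finrank ℤ (𝓞 K) := Nat.cast_nonneg _
  rw [← sum_filter_add_sum_filter_not (Ioc 1 N) (fun d => ¬ d.Prime), mul_add]
  apply add_le_add
  · calc ∑ d ∈ (Ioc 1 N).filter (fun d => ¬ d.Prime), gK K d / (d * Real.log d)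
        ≤ ∑ d ∈ (Ioc 1 N).filter (fun d => ¬ d.Prime),
          (Module.finrank ℤ (𝓞 K) : ℝ) / Real.log 2 * (Λ d / (d : ℝ)) := by
          refine sum_le_sum fun d hd => ?_
          rw [mem_filter, mem_Ioc] at hd
          have hd1 : 2 ≤ d := by omega
          have hd0 : (0 : ℝ) < d := by exact_mod_cast (by omega : 0 < d)
          have hld : Real.log 2 ≤ Real.log d :=
            Real.log_le_log (by norm_num) (by exact_mod_cast hd1)
          have h1 := gK_le K d
          have h2 : 0 ≤ Λ d := vonMangoldt_nonneg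
          calc gK K d / (d * Real.log d) ≤
              ((Module.finrank ℤ (𝓞 K) : ℝ) * Λ d) / (d * Real.log 2) := by
                apply div_le_div₀ (by positivity) h1 (by positivity)
                exact mul_le_mul_of_nonneg_left hld hd0.le
            _ = _ := by field_simp
      _ = (Module.finrank ℤ (𝓞 K) : ℝ) / Real.log 2 *
          ∑ d ∈ (Ioc 1 N).filter (fun d => ¬ d.Prime), Λ d / (d : ℝ) := by rw [mul_sum]
      _ ≤ (Module.finrank ℤ (𝓞 K) : ℝ) / Real.log 2 * C := by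
          apply mul_le_mul_of_nonneg_left _ (by positivity)
          refine (sum_le_sum_of_subset_of_nonneg (filter_subset_filter _ h0)
            fun d _ _ => ?_).trans (h N)
          exact div_nonneg vonMangoldt_nonneg (Nat.cast_nonneg _)
      _ = _ := by ring
  · rw [mul_sum]
    have h3 : ∀ d ∈ (Ioc 1 N).filter (fun d => ¬ ¬ d.Prime), ¬ (ids K d).Nonempty →
        gK K d / (d * Real.log d) = 0 := by
      intro d hd hne
      rw [mem_filter, not_not] at hd
      rw [not_nonempty_iff_eq_empty] at hne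
      rw [gK_prime K hd.2, hne]
      simp
    rw [← sum_filter_of_ne (p := fun d => (ids K d).Nonempty)
      (fun d hd hne => by
        by_contra hcon
        exact hne (h3 d hd hcon)), filter_filter]
    have h4 : (Ioc 1 N).filter (fun d => ¬ ¬ d.Prime ∧ (ids K d).Nonempty) =
        (Ioc 0 N).filter (fun p => p.Prime ∧ (ids K p).Nonempty) := by
      ext d
      simp only [mem_filter, mem_Ioc, not_not]
      constructor
      · rintro ⟨⟨a1, a2⟩, a3, a4⟩
        exact ⟨⟨by omega, a2⟩, a3, a4⟩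
      · rintro ⟨⟨a1, a2⟩, a3, a4⟩
        exact ⟨⟨a3.one_lt, a2⟩, a3, a4⟩
    rw [h4]
    refine sum_le_sum fun p hp => ?_
    rw [mem_filter] at hp
    have hp0 : (0 : ℝ) < p := by exact_mod_cast hp.2.1.pos
    have hlp : 0 < Real.log p := Real.log_pos (by exact_mod_cast hp.2.1.one_lt)
    have h5 := gK_le K p
    rw [vonMangoldt_apply_prime hp.2.1] at h5
    calc gK K p / (p * Real.log p) ≤
        ((Module.finrank ℤ (𝓞 K) : ℝ) * Real.log p) / (p * Real.log p) :=
          div_le_div_of_nonneg_right h5 (by positivity)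
      _ = _ := by field_simp

end Pool.Agent.Lib.MP_be8344_nt
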