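import Mathlib

/-!
# Elements of small norm in an imaginary quadratic field are rational integers
-/

set_option autoImplicit false

open NumberField Module

namespace Pool.Agent.Lib.MP_be8344_nt

/-- a ring of integers of rank two -/
noncomputable def basis2 {K : Type*} [Field K] [NumberField K] (h2 : finrank ℚ K = 2) :
    Basis (Fin 2) ℤ (𝓞 K) :=
  Module.finBasisOfFinrankEq ℤ (𝓞 K) (by rw [RingOfIntegers.rank, h2])

theorem matrix_ch (M : Matrix (Fin 2) (Fin 2) ℤ) :
    M * M - M.trace • M + M.det • (1 : Matrix (Fin 2) (Fin 2) ℤ) = 0 := by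
  ext i j
  simp only [Matrix.add_apply, Matrix.sub_apply, Matrix.mul_apply, Matrix.smul_apply,
    Matrix.one_apply, Fin.sum_univ_two, Matrix.trace_fin_two, Matrix.det_fin_two,
    Matrix.zero_apply, smul_eq_mul]
  fin_cases i <;> fin_cases j <;> simp <;> ring

theorem trace_sq (M : Matrix (Fin 2) (Fin 2) ℤ) :
    (M * M).trace = M.trace ^ 2 - 2 * M.det := by
  simp [Matrix.mul_apply, Fin.sum_univ_two, Matrix.trace_fin_two, Matrix.det_fin_two]
  ring

/-- In an imaginary quadratic field of discriminant `D` an algebraic integer `α` with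
`4 |N(α)| < |D|` is a rational integer. -/
theorem int_of_small_norm {K : Type*} [Field K] [NumberField K] (h2 : finrank ℚ K = 2)
    (hneg : discr K < 0) (α : 𝓞 K) (h : 4 * |Algebra.norm ℤ α| < |discr K|) :
    ∃ m : ℤ, α = (m : 𝓞 K) := by
  set b := basis2 h2 with hb
  set M := Algebra.leftMulMatrix b α with hM
  have hn : Algebra.norm ℤ α = M.det := Algebra.norm_eq_matrix_det b α
  have ht : Algebra.trace ℤ (𝓞 K) α = M.trace := Algebra.trace_eq_matrix_trace b α
  have hMM : Algebra.leftMulMatrix b (α * α) = M * M := map_mul _ _ _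
  have htt : Algebra.trace ℤ (𝓞 K) (α * α) = M.trace ^ 2 - 2 * M.det := by
    rw [Algebra.trace_eq_matrix_trace b, hMM, trace_sq]
  have h1 : Algebra.trace ℤ (𝓞 K) 1 = 2 := by
    have := Algebra.trace_eq_matrix_trace b (1 : 𝓞 K)
    rw [this, map_one, Matrix.trace_one]
    simp
  have hch : α * α - (M.trace : 𝓞 K) * α + (M.det : 𝓞 K) = 0 := by
    apply Algebra.leftMulMatrix_injective b
    have := matrix_ch M
    rw [map_add, map_sub, map_mul, map_mul, map_zero, ← hM]
    have e1 : Algebra.leftMulMatrix b ((M.trace : ℤ) : 𝓞 K) = M.trace • 1 := by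
      rw [← zsmul_one, map_zsmul, map_one]
    have e2 : Algebra.leftMulMatrix b ((M.det : ℤ) : 𝓞 K) = M.det • 1 := by
      rw [← zsmul_one, map_zsmul, map_one]
    rw [e1, e2, smul_mul_assoc, one_mul]
    exact this
  -- the discriminant of `1, α`
  set v : Fin 2 → 𝓞 K := ![1, α] with hv
  have hd1 : Algebra.discr ℤ v = M.trace ^ 2 - 4 * M.det := by
    rw [Algebra.discr_def, Matrix.det_fin_two]
    simp only [Algebra.traceMatrix_apply, Algebra.traceForm_apply, hv, Matrix.cons_val_zero,
      Matrix.cons_val_one, mul_one, one_mul]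
    rw [h1, ht, htt]
    ring
  have hd2 : Algebra.discr ℤ v = (b.toMatrix v).det ^ 2 * discr K := by
    have h3 := Algebra.discr_of_matrix_vecMul b (b.toMatrix v)
    rw [Basis.toMatrix_map_vecMul] at h3
    rw [h3, discr_eq_discr]
  have hkey : M.trace ^ 2 - 4 * M.det = (b.toMatrix v).det ^ 2 * discr K := by
    rw [← hd1, hd2]
  by_cases h0 : (b.toMatrix v).det = 0
  · rw [h0] at hkey
    have h4 : M.trace ^ 2 = 4 * M.det := by linarith
    have h5 : (2 * α - (M.trace : 𝓞 K)) ^ 2 = 0 := by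
      have h6 : ((M.trace : ℤ) : 𝓞 K) ^ 2 = 4 * (M.det : 𝓞 K) := by
        have := congrArg (fun z : ℤ => (z : 𝓞 K)) h4
        simpa only [Int.cast_pow, Int.cast_mul, Int.cast_ofNat] using this
      calc (2 * α - (M.trace : 𝓞 K)) ^ 2 = 4 * (α * α - (M.trace : 𝓞 K) * α + (M.det : 𝓞 K)) +
            (((M.trace : ℤ) : 𝓞 K) ^ 2 - 4 * (M.det : 𝓞 K)) := by ring
        _ = 0 := by rw [hch, h6]; ring
    have h7 : 2 * α = (M.trace : 𝓞 K) := by
      have := pow_eq_zero_iff (two_ne_zero) |>.1 h5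
      exact sub_eq_zero.1 this
    have h8 : (2 : ℤ) ∣ M.trace := by
      have h9 : (2 : ℤ) ∣ M.trace ^ 2 := ⟨2 * M.det, by rw [h4]; ring⟩
      exact Int.prime_two.dvd_of_dvd_pow h9
    obtain ⟨m, hm⟩ := h8
    refine ⟨m, ?_⟩
    rw [hm] at h7
    push_cast at h7
    exact mul_left_cancel₀ two_ne_zero h7
  · exfalso
    have h3 : 1 ≤ (b.toMatrix v).det ^ 2 := by
      have : 0 < (b.toMatrix v).det ^ 2 := by positivity
      omega
    have h4 : (b.toMatrix v).det ^ 2 * discr K ≤ discr K := by nlinarith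
    rw [hn, abs_of_neg hneg] at h
    have h5 : M.det ≤ |M.det| := le_abs_self _
    nlinarith [sq_nonneg M.trace]

end Pool.Agent.Lib.MP_be8344_nt
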