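import Pool.Agent.Lib.MP_be8344_nt.Disc

/-!
# Ideals of small norm are inequivalent modulo `ℓ`-th roots (Ellenberg-Venkatesh)
-/

set_option autoImplicit false

open NumberField Module Ideal
open scoped nonZeroDivisors

namespace Pool.Agent.Lib.MP_be8344_nt

variable {K : Type*} [Field K] [NumberField K]

theorem sq_of_pow_odd {a m l : ℕ} (hl : Odd l) (h : a ^ l = m ^ 2) : ∃ t, a = t ^ 2 := by
  obtain ⟨j, rfl⟩ := hl
  rcases Nat.eq_zero_or_pos a with rfl | ha
  · exact ⟨0, by simp⟩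
  have h1 : (a ^ j) ^ 2 * a = m ^ 2 := by
    rw [← h]
    ring
  have h2 : a ^ j ∣ m := by
    rw [← Nat.pow_dvd_pow_iff (n := 2) two_ne_zero, ← h1]
    exact dvd_mul_right _ _
  obtain ⟨t, rfl⟩ := h2
  refine ⟨t, ?_⟩
  rw [mul_pow] at h1
  exact Nat.eq_of_mul_eq_mul_left (by positivity) h1

/-- two ideals of small norm whose classes have the same `l`-th power -/
theorem ev_pair (h2 : finrank ℚ K = 2) (hneg : discr K < 0) {l : ℕ} (hl : Odd l)
    {I J : (Ideal (𝓞 K))⁰} {a b : ℕ} (ha : absNorm (I : Ideal (𝓞 K)) = a)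
    (hb : absNorm (J : Ideal (𝓞 K)) = b) (hab : 4 * (a * b) ^ l < (discr K).natAbs)
    (h : ClassGroup.mk0 I ^ l = ClassGroup.mk0 J ^ l) : ∃ t, a * b = t ^ 2 := by
  have hb0 : b ≠ 0 := by
    rw [← hb, Ne, absNorm_eq_zero_iff]
    exact nonZeroDivisors.ne_zero J.2
  -- the complementary ideal
  have hdvd : (J : Ideal (𝓞 K)) ∣ Ideal.span {(b : 𝓞 K)} := by
    rw [Ideal.dvd_span_singleton, ← hb]
    exact absNorm_mem _
  obtain ⟨J', hJ'⟩ := pow_dvd_pow_of_dvd hdvd l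
  have hspan0 : Ideal.span {(b : 𝓞 K)} ^ l ≠ 0 := by
    apply pow_ne_zero
    rw [Ne, Ideal.zero_eq_bot, Ideal.span_singleton_eq_bot]
    exact_mod_cast hb0
  have hJ'0 : J' ≠ 0 := by
    rintro rfl
    rw [mul_zero] at hJ'
    exact hspan0 hJ'
  have hn2 : absNorm (Ideal.span {(b : 𝓞 K)}) = b ^ 2 := by
    rw [absNorm_span_natCast, RingOfIntegers.rank, h2]
  have hnJ : absNorm J' = b ^ l := by
    have h3 := congrArg absNorm hJ'
    rw [map_pow, map_mul, map_pow, hn2, hb, ← pow_mul, mul_comm 2 l, pow_mul, sq] at h3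
    exact (Nat.eq_of_mul_eq_mul_left (by positivity) h3).symm
  set J'' : (Ideal (𝓞 K))⁰ := ⟨J', mem_nonZeroDivisors_of_ne_zero hJ'0⟩ with hJ''
  set B : (Ideal (𝓞 K))⁰ := ⟨Ideal.span {(b : 𝓞 K)} ^ l, mem_nonZeroDivisors_of_ne_zero hspan0⟩
    with hB
  have hBJ : B = J ^ l * J'' := Subtype.ext hJ'
  have hB1 : ClassGroup.mk0 B = 1 := by
    rw [ClassGroup.mk0_eq_one_iff]
    refine ⟨⟨(b : 𝓞 K) ^ l, ?_⟩⟩
    show Ideal.span {(b : 𝓞 K)} ^ l = _
    rw [Ideal.span_singleton_pow]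
  have hI1 : ClassGroup.mk0 (I ^ l * J'') = 1 := by
    rw [map_mul, map_pow, h, ← map_pow, ← map_mul, ← hBJ, hB1]
  rw [ClassGroup.mk0_eq_one_iff] at hI1
  obtain ⟨⟨α, hα⟩⟩ := hI1
  have hα' : (I : Ideal (𝓞 K)) ^ l * J' = Ideal.span {α} := hα
  have hnorm : (Algebra.norm ℤ α).natAbs = (a * b) ^ l := by
    rw [← absNorm_span_singleton, ← hα', map_mul, map_pow, ha, hnJ, mul_pow]
  obtain ⟨m, hm⟩ := int_of_small_norm h2 hneg α (by
    rw [Int.abs_eq_natAbs, Int.abs_eq_natAbs, hnorm]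
    exact_mod_cast hab)
  have hm2 : (Algebra.norm ℤ α).natAbs = m.natAbs ^ 2 := by
    rw [hm]
    have := Algebra.norm_algebraMap_of_basis (basis2 h2) m
    rw [Fintype.card_fin] at this
    rw [show ((m : ℤ) : 𝓞 K) = algebraMap ℤ (𝓞 K) m from rfl, this, Int.natAbs_pow]
  rw [hnorm] at hm2
  exact sq_of_pow_odd hl hm2

theorem eq_of_mul_sq {a b t : ℕ} (ha : a = 1 ∨ a.Prime) (hb : b = 1 ∨ b.Prime)
    (h : a * b = t ^ 2) : a = b := by
  have key : ∀ p : ℕ, p.Prime → p ≠ t ^ 2 := by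
    rintro p hp rfl
    exact (Nat.prime_iff.1 hp).irreducible.not_isSquare ⟨t, sq t⟩
  rcases ha with rfl | ha
  · rcases hb with rfl | hb
    · rfl
    · rw [one_mul] at h
      exact absurd h (key b hb)
  · rcases hb with rfl | hb
    · rw [mul_one] at h
      exact absurd h (key a ha)
    · have h1 : a ∣ t := ha.dvd_of_dvd_pow (h ▸ dvd_mul_right a b)
      obtain ⟨s, rfl⟩ := h1
      have h2 : b = a * s ^ 2 := by
        apply Nat.eq_of_mul_eq_mul_left ha.pos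
        rw [h]
        ring
      have h3 : a ∣ b := ⟨s ^ 2, h2⟩
      exact (Nat.prime_dvd_prime_iff_eq ha hb).1 h3

/-- **The step of Ellenberg and Venkatesh.** `Q` is a finite set of non-inert primes `q` with
`4 q ^ (2 l) < |D|`, `l` odd. Then `|Cl / Cl ^ l| (|Q| + 1) ≤ h`. -/
theorem ev (h2 : finrank ℚ K = 2) (hneg : discr K < 0) {l : ℕ} (hl : Odd l) (Q : Finset ℕ)
    (hQ : ∀ q ∈ Q, q.Prime ∧ (∃ P : Ideal (𝓞 K), absNorm P = q) ∧
      4 * q ^ (2 * l) < (discr K).natAbs) :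
    Nat.card (ClassGroup (𝓞 K) ⧸ (powMonoidHom l : ClassGroup (𝓞 K) →* ClassGroup (𝓞 K)).range) *
      (Q.card + 1) ≤ Nat.card (ClassGroup (𝓞 K)) := by
  classical
  set R := (powMonoidHom l : ClassGroup (𝓞 K) →* ClassGroup (𝓞 K)).range with hR
  have hcard : Nat.card (ClassGroup (𝓞 K)) = Nat.card (ClassGroup (𝓞 K) ⧸ R) * Nat.card R :=
    Subgroup.card_eq_card_quotient_mul_card_subgroup R
  rw [hcard]
  apply Nat.mul_le_mul_left
  -- the ideals
  have hex : ∀ o : Option Q, ∃ I : (Ideal (𝓞 K))⁰,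
      absNorm (I : Ideal (𝓞 K)) = o.elim 1 (fun q => (q : ℕ)) := by
    rintro (_ | ⟨q, hq⟩)
    · refine ⟨1, ?_⟩
      simp
    · obtain ⟨hp, ⟨P, hP⟩, -⟩ := hQ q hq
      refine ⟨⟨P, mem_nonZeroDivisors_of_ne_zero ?_⟩, hP⟩
      rintro rfl
      rw [Ideal.zero_eq_bot, absNorm_bot] at hP
      exact hp.ne_zero hP.symm
  choose I hI using hex
  have hval : ∀ o : Option Q, (o.elim 1 (fun q => (q : ℕ)) : ℕ) = 1 ∨
      (o.elim 1 (fun q => (q : ℕ)) : ℕ).Prime := by
    rintro (_ | ⟨q, hq⟩)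
    · exact Or.inl rfl
    · exact Or.inr (hQ q hq).1
  have hinj : Function.Injective (fun o : Option Q => (⟨ClassGroup.mk0 (I o) ^ l,
      ⟨ClassGroup.mk0 (I o), rfl⟩⟩ : R)) := by
    intro o o' hoo
    have h3 : ClassGroup.mk0 (I o) ^ l = ClassGroup.mk0 (I o') ^ l := congrArg Subtype.val hoo
    by_contra hne
    have h4 : 4 * ((o.elim 1 (fun q => (q : ℕ)) : ℕ) * (o'.elim 1 (fun q => (q : ℕ)) : ℕ)) ^ l <
        (discr K).natAbs := by
      have key : ∀ a b : ℕ, 1 ≤ a → a ≤ b → 4 * b ^ (2 * l) < (discr K).natAbs →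
          4 * (a * b) ^ l < (discr K).natAbs := by
        intro a b ha hab hb
        refine lt_of_le_of_lt ?_ hb
        apply Nat.mul_le_mul_left
        rw [pow_mul]
        apply Nat.pow_le_pow_left
        rw [sq]
        exact Nat.mul_le_mul_right _ hab
      rcases o with _ | ⟨q, hq⟩ <;> rcases o' with _ | ⟨q', hq'⟩
      · exact absurd rfl hne
      · exact key 1 q' le_rfl (hQ q' hq').1.one_le (hQ q' hq').2.2
      · show 4 * (q * 1) ^ l < _
        rw [mul_comm q 1]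
        exact key 1 q le_rfl (hQ q hq).1.one_le (hQ q hq).2.2
      · rcases le_total q q' with h | h
        · exact key q q' (hQ q hq).1.one_le h (hQ q' hq').2.2
        · show 4 * (q * q') ^ l < _
          rw [mul_comm q q']
          exact key q' q (hQ q' hq').1.one_le h (hQ q hq).2.2
    obtain ⟨t, ht⟩ := ev_pair h2 hneg hl (hI o) (hI o') h4 h3
    have h5 := eq_of_mul_sq (hval o) (hval o') ht
    apply hne
    rcases o with _ | ⟨q, hq⟩ <;> rcases o' with _ | ⟨q', hq'⟩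
    · rfl
    · exact absurd h5.symm (hQ q' hq').1.one_lt.ne'
    · exact absurd h5 (hQ q hq).1.one_lt.ne'
    · have h6 : q = q' := h5
      subst h6
      rfl
  have h5 := Nat.card_le_card_of_injective _ hinj
  rw [Nat.card_eq_fintype_card, Fintype.card_option, Fintype.card_coe] at h5
  exact h5

end Pool.Agent.Lib.MP_be8344_nt
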