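import Pool.Agent.Lib.MP_1446ad_nt.SM.MRA
import Pool.Agent.Lib.MP_1446ad_nt.SM.MRB

/-!
# Sums of reciprocals of primes
-/

set_option autoImplicit false

open Finset

namespace Pool.Agent.Lib.MP_be8344_nt

theorem mert : ∃ C : ℝ, 0 ≤ C ∧ ∀ a b : ℕ, 2 ≤ a → a ≤ b →
    ∑ p ∈ (Icc a b).filter Nat.Prime, 1 / (p : ℝ) ≤ C + Real.log (Real.log b / Real.log a) := by
  obtain ⟨C, hC, h⟩ := Pool.Agent.Lib.MP_1446ad_nt.SM.specMRB Pool.Agent.Lib.MP_1446ad_nt.SM.specMRA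
  have hl2 : 0 < Real.log 2 := Real.log_pos (by norm_num)
  refine ⟨1 + C / Real.log 2, by positivity, fun a b ha hab => ?_⟩
  have hsub : (Icc a b).filter Nat.Prime ⊆ insert a ((Ioc a b).filter Nat.Prime) := by
    intro p hp
    rw [mem_filter, mem_Icc] at hp
    rw [mem_insert, mem_filter, mem_Ioc]
    rcases Nat.eq_or_lt_of_le hp.1.1 with h1 | h1
    · exact Or.inl h1.symm
    · exact Or.inr ⟨⟨h1, hp.1.2⟩, hp.2⟩
  have h1 : ∑ p ∈ (Icc a b).filter Nat.Prime, 1 / (p : ℝ) ≤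
      ∑ p ∈ insert a ((Ioc a b).filter Nat.Prime), 1 / (p : ℝ) :=
    sum_le_sum_of_subset_of_nonneg hsub fun _ _ _ => by positivity
  have hna : a ∉ (Ioc a b).filter Nat.Prime := by
    rw [mem_filter, mem_Ioc]
    omega
  rw [sum_insert hna] at h1
  have h2 := h a b ha hab
  have ha1 : (1 : ℝ) ≤ a := by exact_mod_cast (by omega : 1 ≤ a)
  have h3 : 1 / (a : ℝ) ≤ 1 := by
    rw [div_le_one (by linarith)]
    exact ha1
  have h4 : C / Real.log a ≤ C / Real.log 2 := by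
    apply div_le_div_of_nonneg_left hC hl2
    exact Real.log_le_log (by norm_num) (by exact_mod_cast ha)
  linarith

theorem small_part : ∃ C : ℝ, 0 ≤ C ∧ ∀ Q : Finset ℕ, (∀ q ∈ Q, q.Prime) →
    ∑ p ∈ Q, 1 / (p : ℝ) ≤ C + Real.log (Real.log ((Q.card : ℝ) + 2)) := by
  obtain ⟨C, hC, h⟩ := mert
  refine ⟨C + 1 + |Real.log (Real.log 2)|, by positivity, fun Q hQ => ?_⟩
  have hl2 : 0 < Real.log 2 := Real.log_pos (by norm_num)
  set k := Q.card with hk
  rw [← sum_filter_add_sum_filter_not Q (fun p => p ≤ k + 2)]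
  have hsub : Q.filter (fun p => p ≤ k + 2) ⊆ (Icc 2 (k + 2)).filter Nat.Prime := by
    intro p hp
    rw [mem_filter] at hp
    rw [mem_filter, mem_Icc]
    exact ⟨⟨(hQ p hp.1).two_le, hp.2⟩, hQ p hp.1⟩
  have h1 : ∑ p ∈ Q.filter (fun p => p ≤ k + 2), 1 / (p : ℝ) ≤
      ∑ p ∈ (Icc 2 (k + 2)).filter Nat.Prime, 1 / (p : ℝ) :=
    sum_le_sum_of_subset_of_nonneg hsub fun _ _ _ => by positivity
  have h2 := h 2 (k + 2) le_rfl (by omega)
  have hlk : 0 < Real.log ((k + 2 : ℕ) : ℝ) :=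
    Real.log_pos (by exact_mod_cast (by omega : 1 < k + 2))
  push_cast at h2 hlk
  rw [Real.log_div hlk.ne' hl2.ne'] at h2
  have h3 : ∑ p ∈ Q.filter (fun p => ¬ p ≤ k + 2), 1 / (p : ℝ) ≤ 1 := by
    calc ∑ p ∈ Q.filter (fun p => ¬ p ≤ k + 2), 1 / (p : ℝ) ≤
        ∑ p ∈ Q.filter (fun p => ¬ p ≤ k + 2), 1 / ((k : ℝ) + 2) := by
          refine sum_le_sum fun p hp => ?_
          rw [mem_filter, not_le] at hp
          apply one_div_le_one_div_of_le (by positivity)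
          exact_mod_cast hp.2.le
      _ = ((Q.filter (fun p => ¬ p ≤ k + 2)).card : ℝ) * (1 / ((k : ℝ) + 2)) := by
          rw [sum_const, nsmul_eq_mul]
      _ ≤ (k : ℝ) * (1 / ((k : ℝ) + 2)) := by
          apply mul_le_mul_of_nonneg_right _ (by positivity)
          exact_mod_cast card_filter_le _ _
      _ ≤ 1 := by
          rw [mul_one_div, div_le_one (by positivity)]
          linarith
  have h4 := neg_abs_le (Real.log (Real.log 2))
  linarith

theorem large_part : ∃ C : ℝ, 0 ≤ C ∧ ∀ d l : ℕ, 1 ≤ l →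
    ∑ p ∈ (Ioc 0 (Nat.sqrt d)).filter (fun p => p.Prime ∧ d ≤ 4 * p ^ (2 * l)), 1 / (p : ℝ) ≤
      C + Real.log ((l : ℝ) + 1) := by
  obtain ⟨C, hC, h⟩ := mert
  refine ⟨C, hC, fun d l hl => ?_⟩
  have hex : ∃ a, d ≤ 4 * a ^ (2 * l) := by
    refine ⟨d, ?_⟩
    calc d ≤ d ^ (2 * l) := Nat.le_self_pow (by omega) d
      _ ≤ 4 * d ^ (2 * l) := by omega
  classical
  set a := Nat.find hex with ha
  have ha1 : d ≤ 4 * a ^ (2 * l) := Nat.find_spec hex
  set a' := max 2 a with ha'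
  have ha2 : 2 ≤ a' := le_max_left _ _
  have hsub : (Ioc 0 (Nat.sqrt d)).filter (fun p => p.Prime ∧ d ≤ 4 * p ^ (2 * l)) ⊆
      (Icc a' (Nat.sqrt d)).filter Nat.Prime := by
    intro p hp
    rw [mem_filter, mem_Ioc] at hp
    rw [mem_filter, mem_Icc]
    exact ⟨⟨max_le hp.2.1.two_le (Nat.find_min' hex hp.2.2), hp.1.2⟩, hp.2.1⟩
  have h1 := sum_le_sum_of_subset_of_nonneg (f := fun p : ℕ => 1 / (p : ℝ)) hsub
    fun _ _ _ => by positivity
  refine h1.trans ?_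
  have hl1 : (1 : ℝ) ≤ (l : ℝ) + 1 := by
    have : (0 : ℝ) ≤ l := Nat.cast_nonneg l
    linarith
  rcases le_or_gt a' (Nat.sqrt d) with hle | hgt
  · refine (h a' (Nat.sqrt d) ha2 hle).trans ?_
    have hla : 0 < Real.log a' := Real.log_pos (by exact_mod_cast (by omega : 1 < a'))
    have hlN : 0 < Real.log (Nat.sqrt d) :=
      Real.log_pos (by exact_mod_cast (by omega : 1 < Nat.sqrt d))
    have h2 : Nat.sqrt d ≤ a' ^ (l + 1) := by
      have h3 : Nat.sqrt d ^ 2 ≤ (a' ^ (l + 1)) ^ 2 := by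
        calc Nat.sqrt d ^ 2 ≤ d := Nat.sqrt_le' d
          _ ≤ 4 * a ^ (2 * l) := ha1
          _ ≤ 2 ^ 2 * a' ^ (2 * l) := Nat.mul_le_mul (by norm_num)
              (Nat.pow_le_pow_left (le_max_right _ _) _)
          _ ≤ a' ^ 2 * a' ^ (2 * l) := Nat.mul_le_mul_right _ (Nat.pow_le_pow_left ha2 2)
          _ = (a' ^ (l + 1)) ^ 2 := by ring
      exact (Nat.pow_le_pow_iff_left two_ne_zero).1 h3
    have h3 : Real.log (Nat.sqrt d) ≤ ((l : ℝ) + 1) * Real.log a' := by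
      have h4 : Real.log ((Nat.sqrt d : ℕ) : ℝ) ≤ Real.log ((a' ^ (l + 1) : ℕ) : ℝ) :=
        Real.log_le_log (by exact_mod_cast (by omega : 0 < Nat.sqrt d)) (by exact_mod_cast h2)
      rw [Nat.cast_pow, Real.log_pow] at h4
      push_cast at h4
      exact h4
    have h5 : Real.log (Real.log (Nat.sqrt d) / Real.log a') ≤ Real.log ((l : ℝ) + 1) := by
      apply Real.log_le_log (by positivity)
      rw [div_le_iff₀ hla]
      exact h3
    linarith
  · rw [Icc_eq_empty (by omega), filter_empty, sum_empty]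
    have := Real.log_nonneg hl1
    linarith

end Pool.Agent.Lib.MP_be8344_nt
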