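import Pool.Agent.Lib.MP_be8344_nt.Cls
import Pool.Agent.Lib.MP_be8344_nt.EV
import Pool.Agent.Lib.MP_be8344_nt.Mert

/-!
# A pointwise upper bound for `|Cl / Cl ^ l|` of imaginary quadratic fields
-/

set_option autoImplicit false

open Finset NumberField Ideal Module
open scoped nonZeroDivisors

namespace Pool.Agent.Lib.MP_be8344_nt

open Pool.Agent.Lib.MP5b6025.RP.FieldM

/-- the primes `q` with `4 q ^ (2 l) < |D|` that are the norm of an ideal -/
def smallPrimes (K : Type) [Field K] [NumberField K] (l : ℕ) : Set ℕ :=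
  {q | q.Prime ∧ (∃ P : Ideal (𝓞 K), absNorm P = q) ∧ 4 * q ^ (2 * l) < (discr K).natAbs}

theorem smallPrimes_finite (K : Type) [Field K] [NumberField K] {l : ℕ} (hl : 1 ≤ l) :
    (smallPrimes K l).Finite := by
  apply (Set.finite_Iic (discr K).natAbs).subset
  rintro q ⟨-, -, h⟩
  rw [Set.mem_Iic]
  have : q ≤ q ^ (2 * l) := Nat.le_self_pow (by omega) q
  omega

theorem GG_bd : ∃ C : ℝ, 0 < C ∧ ∀ (K : Type) [Field K] [NumberField K], finrank ℚ K = 2 →
    ∀ l : ℕ, 1 ≤ l → ∀ N : ℕ, 1 ≤ N → N ≤ Nat.sqrt (discr K).natAbs →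
      GG K N ≤ C * (l : ℝ) ^ 2 * Real.log (((smallPrimes K l).ncard : ℝ) + 2) ^ 2 := by
  obtain ⟨C0, hC0, h0⟩ := prime_part
  obtain ⟨C1, hC1, h1⟩ := small_part
  obtain ⟨C2, hC2, h2⟩ := large_part
  refine ⟨4 * Real.exp (2 * (C0 + C1 + C2)), by positivity, fun K _ _ hK l hl N hN hNd => ?_⟩
  classical
  set d := (discr K).natAbs with hd
  set k := (smallPrimes K l).ncard with hk
  have hfin := smallPrimes_finite K hl
  have hrank : Module.finrank ℤ (𝓞 K) = 2 := by rw [RingOfIntegers.rank, hK]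
  have hlk : 0 < Real.log ((k : ℝ) + 2) := by
    apply Real.log_pos
    have : (0 : ℝ) ≤ k := Nat.cast_nonneg k
    linarith
  have hll : (0 : ℝ) < (l : ℝ) + 1 := by positivity
  set F := (Ioc 0 N).filter (fun p => p.Prime ∧ (ids K p).Nonempty) with hF
  have e1 : ∑ p ∈ F, 1 / (p : ℝ) ≤
      (C1 + Real.log (Real.log ((k : ℝ) + 2))) + (C2 + Real.log ((l : ℝ) + 1)) := by
    rw [← sum_filter_add_sum_filter_not F (fun p => 4 * p ^ (2 * l) < d)]
    apply add_le_add
    · have hsub : F.filter (fun p => 4 * p ^ (2 * l) < d) ⊆ hfin.toFinset := by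
        intro p hp
        rw [mem_filter, hF, mem_filter] at hp
        rw [Set.Finite.mem_toFinset]
        obtain ⟨⟨hp1, hp2, ⟨P, hP⟩⟩, hp3⟩ := hp
        exact ⟨hp2, ⟨P, mem_ids.1 hP⟩, hp3⟩
      refine (sum_le_sum_of_subset_of_nonneg hsub fun _ _ _ => by positivity).trans ?_
      have h3 := h1 hfin.toFinset (fun q hq => ((Set.Finite.mem_toFinset hfin).1 hq).1)
      rw [← Set.ncard_eq_toFinset_card _ hfin] at h3
      exact h3
    · refine (sum_le_sum_of_subset_of_nonneg ?_ fun _ _ _ => by positivity).trans (h2 d l hl)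
      intro p hp
      rw [mem_filter, hF, mem_filter, mem_Ioc] at hp
      rw [mem_filter, mem_Ioc]
      exact ⟨⟨hp.1.1.1, hp.1.1.2.trans hNd⟩, hp.1.2.1, not_lt.1 hp.2⟩
  have e2 := (GG_le_exp K N hN).trans (Real.exp_le_exp.2 (h0 K N))
  rw [hrank] at e2
  have e3 : ((2 : ℕ) : ℝ) * (C0 + ∑ p ∈ F, 1 / (p : ℝ)) ≤
      2 * (C0 + C1 + C2) + 2 * Real.log (Real.log ((k : ℝ) + 2)) + 2 * Real.log ((l : ℝ) + 1) := by
    push_cast
    linarith
  refine (e2.trans (Real.exp_le_exp.2 e3)).trans ?_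
  have e4 : ∀ x : ℝ, 0 < x → Real.exp (2 * Real.log x) = x ^ 2 := fun x hx => by
    rw [two_mul, Real.exp_add, Real.exp_log hx, sq]
  rw [Real.exp_add, Real.exp_add, e4 _ hlk, e4 _ hll]
  have e5 : ((l : ℝ) + 1) ^ 2 ≤ 4 * (l : ℝ) ^ 2 := by
    have : (1 : ℝ) ≤ l := by exact_mod_cast hl
    nlinarith
  calc Real.exp (2 * (C0 + C1 + C2)) * Real.log ((k : ℝ) + 2) ^ 2 * ((l : ℝ) + 1) ^ 2 ≤
      Real.exp (2 * (C0 + C1 + C2)) * Real.log ((k : ℝ) + 2) ^ 2 * (4 * (l : ℝ) ^ 2) :=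
        mul_le_mul_of_nonneg_left e5 (by positivity)
    _ = _ := by ring

theorem class_bd : ∃ C : ℝ, 0 < C ∧ ∀ (K : Type) [Field K] [NumberField K], finrank ℚ K = 2 →
    ∀ l : ℕ, 1 ≤ l →
      (Nat.card (ClassGroup (𝓞 K)) : ℝ) * Real.log (discr K).natAbs ≤
        C * (l : ℝ) ^ 2 * Real.log (((smallPrimes K l).ncard : ℝ) + 2) ^ 2 *
          √((discr K).natAbs : ℝ) := by
  obtain ⟨C, hC, h⟩ := GG_bd
  have hl4 : (0 : ℝ) ≤ Real.log 4 := Real.log_nonneg (by norm_num)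
  refine ⟨4 * (2 * (Real.log 4 + 4) + 1) * C, by positivity, fun K _ _ hK l hl => ?_⟩
  have hd2 : 2 < |discr K| := abs_discr_gt_two (by omega)
  have hd3 : 3 ≤ (discr K).natAbs := by
    rw [Int.abs_eq_natAbs] at hd2
    exact_mod_cast hd2
  set d := (discr K).natAbs with hd
  set N := Nat.sqrt d with hN
  have hN1 : 1 ≤ N := by
    rw [hN, Nat.one_le_iff_ne_zero, Ne, Nat.sqrt_eq_zero]
    omega
  have hrank : Module.finrank ℤ (𝓞 K) = 2 := by rw [RingOfIntegers.rank, hK]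
  have hG := h K hK l hl N hN1 le_rfl
  have hA := AA_le K N hN1
  rw [hrank] at hA
  have hcard := card_le_AA K hK
  rw [← hd, ← hN] at hcard
  have hG1 : 1 ≤ GG K N := by
    have h1 : cK K 1 / ((1 : ℕ) : ℝ) ≤ GG K N :=
      single_le_sum (f := fun m : ℕ => cK K m / (m : ℝ))
        (fun m _ => div_nonneg (cK_nonneg K m) (Nat.cast_nonneg m)) (mem_Ioc.2 ⟨one_pos, hN1⟩)
    rw [cK_one] at h1
    simpa using h1
  have hNd : (N : ℝ) ≤ √(d : ℝ) := Real.nat_sqrt_le_real_sqrt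
  have hd0 : (0 : ℝ) < d := by exact_mod_cast (by omega : 0 < d)
  have key : (Nat.card (ClassGroup (𝓞 K)) : ℝ) * Real.log d ≤
      4 * (2 * (Real.log 4 + 4) + 1) * √(d : ℝ) * GG K N := by
    rcases Nat.lt_or_ge N 2 with hN2 | hN2
    · have hN' : N = 1 := by omega
      have hA1 : AA K N = 1 := by
        rw [hN']
        unfold AA
        rw [show Ioc 0 1 = {1} from rfl, sum_singleton, cK_one]
      have hld : Real.log d ≤ 2 * √(d : ℝ) := by
        have h1 := Real.log_le_sub_one_of_pos (Real.sqrt_pos.2 hd0)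
        rw [Real.log_sqrt hd0.le] at h1
        linarith
      have hld0 : 0 ≤ Real.log d := Real.log_natCast_nonneg d
      have hs0 : 0 ≤ √(d : ℝ) := Real.sqrt_nonneg _
      calc (Nat.card (ClassGroup (𝓞 K)) : ℝ) * Real.log d ≤ 1 * (2 * √(d : ℝ)) := by
            apply mul_le_mul (hA1 ▸ hcard) hld hld0 zero_le_one
        _ ≤ (4 * (2 * (Real.log 4 + 4) + 1) * √(d : ℝ)) * 1 := by nlinarith
        _ ≤ _ := mul_le_mul_of_nonneg_left hG1 (by positivity)
    · have hld : Real.log d ≤ 4 * Real.log N := by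
        have h1 : d ≤ N ^ 4 := by
          have h2 : d < (N + 1) ^ 2 := by
            rw [hN]
            exact Nat.lt_succ_sqrt' d
          have h3 : N + 1 ≤ N ^ 2 := by nlinarith
          calc d ≤ (N + 1) ^ 2 := h2.le
            _ ≤ (N ^ 2) ^ 2 := Nat.pow_le_pow_left h3 2
            _ = N ^ 4 := by ring
        have h4 : Real.log d ≤ Real.log ((N ^ 4 : ℕ) : ℝ) :=
          Real.log_le_log hd0 (by exact_mod_cast h1)
        rw [Nat.cast_pow, Real.log_pow] at h4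
        push_cast at h4
        exact h4
      have hlN : 0 ≤ Real.log N := Real.log_natCast_nonneg N
      have hA0 : 0 ≤ AA K N := le_trans (Nat.cast_nonneg _) hcard
      calc (Nat.card (ClassGroup (𝓞 K)) : ℝ) * Real.log d ≤ AA K N * (4 * Real.log N) :=
            mul_le_mul hcard hld (Real.log_natCast_nonneg d) hA0
        _ = 4 * (AA K N * Real.log N) := by ring
        _ ≤ 4 * ((((2 : ℕ) : ℝ) * (Real.log 4 + 4) + 1) * N * GG K N) :=
            mul_le_mul_of_nonneg_left hA (by norm_num)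
        _ = 4 * (2 * (Real.log 4 + 4) + 1) * GG K N * N := by push_cast; ring
        _ ≤ 4 * (2 * (Real.log 4 + 4) + 1) * GG K N * √(d : ℝ) :=
            mul_le_mul_of_nonneg_left hNd (by positivity)
        _ = _ := by ring
  refine key.trans ?_
  calc 4 * (2 * (Real.log 4 + 4) + 1) * √(d : ℝ) * GG K N ≤
      4 * (2 * (Real.log 4 + 4) + 1) * √(d : ℝ) *
        (C * (l : ℝ) ^ 2 * Real.log (((smallPrimes K l).ncard : ℝ) + 2) ^ 2) :=
        mul_le_mul_of_nonneg_left hG (by positivity)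
    _ = _ := by ring

/-- **Theorem 1.** -/
theorem quotient_bd : ∃ C : ℝ, 0 < C ∧ ∀ (K : Type) [Field K] [NumberField K], finrank ℚ K = 2 →
    discr K < 0 → ∀ l : ℕ, Odd l →
      (Nat.card (ClassGroup (𝓞 K) ⧸
          (powMonoidHom l : ClassGroup (𝓞 K) →* ClassGroup (𝓞 K)).range) : ℝ) *
          (((smallPrimes K l).ncard : ℝ) + 1) ≤
        C * (l : ℝ) ^ 2 * Real.log (((smallPrimes K l).ncard : ℝ) + 2) ^ 2 *
          (√|(discr K : ℝ)| / Real.log |(discr K : ℝ)|) := by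
  obtain ⟨C, hC, h⟩ := class_bd
  refine ⟨C, hC, fun K _ _ hK hneg l hl => ?_⟩
  have hl1 : 1 ≤ l := hl.pos
  have h1 := h K hK l hl1
  have hfin := smallPrimes_finite K hl1
  have h2 := ev hK hneg hl hfin.toFinset (fun q hq => (Set.Finite.mem_toFinset hfin).1 hq)
  rw [← Set.ncard_eq_toFinset_card _ hfin] at h2
  have h3 : |(discr K : ℝ)| = ((discr K).natAbs : ℝ) := by
    rw [Nat.cast_natAbs, Int.cast_abs]
  have hd2 : 2 < |discr K| := abs_discr_gt_two (by omega)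
  have hd3 : 3 ≤ (discr K).natAbs := by
    rw [Int.abs_eq_natAbs] at hd2
    exact_mod_cast hd2
  have hlog : 0 < Real.log ((discr K).natAbs : ℝ) :=
    Real.log_pos (by exact_mod_cast (by omega : 1 < (discr K).natAbs))
  rw [h3, ← mul_div_assoc, le_div_iff₀ hlog]
  refine le_trans ?_ h1
  apply mul_le_mul_of_nonneg_right _ hlog.le
  exact_mod_cast h2

/-- **Theorem 2.** -/
theorem quotient_bd' : ∃ C : ℝ, 0 < C ∧ ∀ (K : Type) [Field K] [NumberField K], finrank ℚ K = 2 →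
    discr K < 0 → ∀ l : ℕ, Odd l →
      (Nat.card (ClassGroup (𝓞 K) ⧸
          (powMonoidHom l : ClassGroup (𝓞 K) →* ClassGroup (𝓞 K)).range) : ℝ) ≤
        C * (l : ℝ) ^ 2 * (√|(discr K : ℝ)| / Real.log |(discr K : ℝ)|) := by
  obtain ⟨C, hC, h⟩ := quotient_bd
  refine ⟨8 * C, by positivity, fun K _ _ hK hneg l hl => ?_⟩
  have h1 := h K hK hneg l hl
  obtain ⟨x, hx⟩ : ∃ x : ℝ, x = ((smallPrimes K l).ncard : ℝ) := ⟨_, rfl⟩
  have hx0 : 0 ≤ x := by
    rw [hx]
    exact Nat.cast_nonneg _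
  rw [← hx] at h1
  have hd2 : 2 < |discr K| := abs_discr_gt_two (by omega)
  have hd : (1 : ℝ) < |(discr K : ℝ)| := by
    have h4 : ((2 : ℤ) : ℝ) < ((|discr K| : ℤ) : ℝ) := by exact_mod_cast hd2
    rw [Int.cast_abs] at h4
    push_cast at h4
    linarith
  have hS : 0 ≤ √|(discr K : ℝ)| / Real.log |(discr K : ℝ)| :=
    div_nonneg (Real.sqrt_nonneg _) (Real.log_pos hd).le
  have hlog : Real.log (x + 2) ^ 2 ≤ 8 * (x + 1) := by
    have h2 := Real.log_le_sub_one_of_pos (Real.sqrt_pos.2 (by linarith : 0 < x + 2))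
    rw [Real.log_sqrt (by linarith)] at h2
    have h3 : 0 ≤ Real.log (x + 2) := Real.log_nonneg (by linarith)
    have h4 : Real.log (x + 2) ≤ 2 * √(x + 2) := by linarith
    have h5 := pow_le_pow_left₀ h3 h4 2
    rw [mul_pow, Real.sq_sqrt (by linarith)] at h5
    linarith
  refine le_of_mul_le_mul_right ?_ (by linarith : 0 < x + 1)
  refine h1.trans ?_
  calc C * (l : ℝ) ^ 2 * Real.log (x + 2) ^ 2 * (√|(discr K : ℝ)| / Real.log |(discr K : ℝ)|) ≤
      C * (l : ℝ) ^ 2 * (8 * (x + 1)) * (√|(discr K : ℝ)| / Real.log |(discr K : ℝ)|) :=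
        mul_le_mul_of_nonneg_right (mul_le_mul_of_nonneg_left hlog (by positivity)) hS
    _ = _ := by ring

end Pool.Agent.Lib.MP_be8344_nt
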